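import Pool.Agent.ATB.Stmts

set_option autoImplicit false

/-!
# Squad ATB, row CHN: iterate INJ
-/

namespace Pool.Agent.ATB.H60

open scoped TensorProduct

theorem ins_rep {K : Type} [Field K] {n : ℕ} (Z : Multiset (Fin n → K)) (c : Fin n → K)
    (H : Submodule K (Fin n → K)) (hc : c ∉ H) (s : ℕ) :
    ins (Multiset.replicate s c + Z) H = ins Z H := by
  rw [ins_add]
  have h : ins (Multiset.replicate s c) H = 0 := by
    rw [Multiset.eq_zero_iff_forall_notMem]
    intro z hz
    rw [mem_ins] at hz
    have h1 := Multiset.eq_of_mem_replicate hz.1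
    exact hc (h1 ▸ hz.2)
  rw [h, zero_add]

theorem chn (inj : INJStmt) : CHNStmt := by
  intro K _ n k Z c m hH s
  induction s with
  | zero =>
    intro h
    simpa using h
  | succ s ih =>
    intro h
    apply ih
    refine inj K n (k + s) (Multiset.replicate s c + Z) c m ?_ ?_
    · intro H hc
      have h1 := hH s H hc
      have h2 : k + (s : ℤ) + 1 = k + 1 + s := by ring
      have h3 : Cc (k + (s : ℤ) + 1) (Multiset.replicate s c + Z) H = Cc (k + 1 + s) Z H := by
        funext i
        unfold Cc
        rw [ins_rep Z c H hc s, h2]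
      rw [h3]
      exact h1
    · have h2 : k + (s : ℤ) + 1 = k + ((s + 1 : ℕ) : ℤ) := by push_cast; ring
      rw [h2, ← Multiset.cons_add, ← Multiset.replicate_succ]
      exact h

end Pool.Agent.ATB.H60
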