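import Pool.Agent.ATB.Stmts

set_option autoImplicit false

/-!
# Squad ATB, row CTR: contraction with a functional
-/

namespace Pool.Agent.ATB.H60

open scoped TensorProduct

variable {K : Type} [Field K] {n : ℕ}

theorem ctr_tmul (P : Module.Dual K (Fin n → K)) (t : MvPolynomial (Fin n) K)
    (w : ExteriorAlgebra K (Fin n → K)) : ctr P (t ⊗ₜ[K] w) =
      t ⊗ₜ[K] (CliffordAlgebra.contractLeft (Q := (0 : QuadraticForm K (Fin n → K))) P w) := by
  simp [ctr]

theorem ld_tmul (π : (Fin n → K) →ₗ[K] (Fin n → K)) (u : ℕ) (t : MvPolynomial (Fin n) K)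
    (w : ExteriorAlgebra K (Fin n → K)) : ld π u (t ⊗ₜ[K] w) = ldp π u t ⊗ₜ[K] w := by
  simp [ld]

theorem con_zero (P : Module.Dual K (Fin n → K)) (U : Submodule K (Fin n → K))
    (hU : ∀ u ∈ U, P u = 0) (m : ℕ) {w : ExteriorAlgebra K (Fin n → K)}
    (hw : w ∈ (U.map (ExteriorAlgebra.ι K)) ^ m) :
    CliffordAlgebra.contractLeft (Q := (0 : QuadraticForm K (Fin n → K))) P w = 0 := by
  refine Submodule.pow_induction_on_left (M := U.map (ExteriorAlgebra.ι K))
    (C := fun w => CliffordAlgebra.contractLeft (Q := (0 : QuadraticForm K (Fin n → K))) P w = 0)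
    ?_ ?_ ?_ hw
  · intro r
    exact CliffordAlgebra.contractLeft_algebraMap _ P r
  · intro x y hx hy
    rw [map_add, hx, hy, add_zero]
  · rintro v ⟨u, hu, rfl⟩ x hx
    have h := CliffordAlgebra.contractLeft_ι_mul (Q := (0 : QuadraticForm K (Fin n → K)))
      (d := P) u x
    rw [hx, mul_zero, sub_zero, hU u hu, zero_smul] at h
    exact h

theorem ctr : CTRStmt := by
  intro K _ n P
  refine ⟨?_, ?_, ?_, ?_⟩
  · intro c x
    induction x using TensorProduct.induction_on with
    | zero => simp
    | tmul t w =>
      rw [wl_tmul, ctr_tmul, ctr_tmul, wl_tmul]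
      have h := CliffordAlgebra.contractLeft_ι_mul (Q := (0 : QuadraticForm K (Fin n → K)))
        (d := P) c w
      have h' : CliffordAlgebra.contractLeft (Q := (0 : QuadraticForm K (Fin n → K))) P
          (ExteriorAlgebra.ι K c * w) = P c • w - ExteriorAlgebra.ι K c *
          CliffordAlgebra.contractLeft (Q := (0 : QuadraticForm K (Fin n → K))) P w := h
      rw [h', TensorProduct.tmul_sub, TensorProduct.tmul_smul]
    | add x y hx hy =>
      rw [map_add, map_add, hx, hy, map_add, map_add, smul_add]
      abel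
  · intro s x
    induction x using TensorProduct.induction_on with
    | zero => simp
    | tmul t w => rw [pm_tmul, ctr_tmul, ctr_tmul, pm_tmul]
    | add x y hx hy => simp only [map_add, hx, hy]
  · intro π u x
    induction x using TensorProduct.induction_on with
    | zero => simp
    | tmul t w => rw [ld_tmul, ctr_tmul, ctr_tmul, ld_tmul]
    | add x y hx hy => simp only [map_add, hx, hy]
  · intro U i ω s hU hω
    rw [ctr_tmul]
    have h : CliffordAlgebra.contractLeft (Q := (0 : QuadraticForm K (Fin n → K))) P ω = 0 := by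
      cases i with
      | ofNat m => exact con_zero P U hU m hω
      | negSucc m =>
        have h1 : ω = 0 := hω
        rw [h1, map_zero]
    rw [h, TensorProduct.tmul_zero]

end Pool.Agent.ATB.H60
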